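import Mathlib
import Pool.Agent.TH769.TreeER
import Pool.Agent.TH769.WC
import Pool.Agent.Results.MP_12b8e0_lc.InjectionTree

/-!
# MP_7e5099_lc, Q2: infinitely many colours for nonspecial trees at a weakly compact cardinal

For a weakly compact cardinal `κ` and infinitely many (but fewer than `κ`) colours, the ordinals
`α` for which every tree that is not `κ`-special arrows `α` are exactly the `α ≤ κ + 1`.
-/

set_option autoImplicit false

namespace Pool.Agent.Results.MP_7e5099_lc.CountablyManyColours

open Cardinal Ordinal Set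

universe u

/-- A tree: the predecessors of every element are well-ordered. -/
def IsTree (T : Type u) [PartialOrder T] : Prop :=
  ∀ t : T, IsWellOrder (Set.Iio t) (· < ·)

/-- `T` is `lam`-special: some map from `T` to a set of size `lam` separates comparable elements. -/
def Special (T : Type u) [PartialOrder T] (lam : Cardinal.{u}) : Prop :=
  ∃ f : T → lam.out, ∀ x y : T, x < y → f x ≠ f y

/-- `T → (α)²_μ`: every colouring of the pairs `x < y` with `μ` colours is constant on some chain
of order type `α` (the chain is given as a strictly increasing map on the ordinals below `α`). -/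
def Arrow (T : Type u) [PartialOrder T] (α : Ordinal.{u}) (μ : Cardinal.{u}) : Prop :=
  ∀ c : T → T → μ.out, ∃ g : Set.Iio α → T, StrictMono g ∧
    ∃ i : μ.out, ∀ a b : Set.Iio α, a < b → c (g a) (g b) = i

/-- `κ` is weakly compact: `κ` is uncountable and `κ → (κ)²₂`, that is, for every colouring of the
pairs of a set `X` of size `κ` with two colours there is a homogeneous subset of size `κ`. -/
def WeaklyCompact (κ : Cardinal.{u}) : Prop :=
  ℵ₀ < κ ∧ ∀ (X : Type u), #X = κ → ∀ c : X → X → Fin 2, (∀ x y : X, c x y = c y x) →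
    ∃ H : Set X, #H = κ ∧ ∃ i : Fin 2, ∀ x : X, x ∈ H → ∀ y : X, y ∈ H → x ≠ y → c x y = i

/-- Every nonspecial tree arrows `κ + 1` for fewer than `κ` colours. -/
theorem positive {κ : Cardinal.{u}} (hκ : κ.IsRegular) (hp : (2 : Cardinal.{u}) ^< κ = κ)
    {μ : Cardinal.{u}} (hμ : μ < κ) {α : Ordinal.{u}} (hα : α ≤ κ.ord + 1)
    (T : Type u) [PartialOrder T] (hT : IsTree T) (hs : ¬ Special T κ) : Arrow T α μ := by
  classical
  intro c
  obtain ⟨x, t, v, hx, hxt, h1, h2⟩ := TH769.TreeER.erdos_rado hκ hp hT hs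
    (Λ := μ.out) (by rw [mk_out]; exact hμ) c
  refine ⟨fun a => if h : a.1 < κ.ord then x (ToType.mk ⟨a.1, h⟩) else t, ?_, v, ?_⟩
  · intro a b hab
    have hab' : a.1 < b.1 := hab
    have ha : a.1 < κ.ord := by
      have hb : b.1 < κ.ord + 1 := lt_of_lt_of_le b.2 hα
      exact hab'.trans_le (Order.lt_add_one_iff.1 hb)
    dsimp only
    rw [dif_pos ha]
    split_ifs with hb
    · apply hx
      rw [OrderIso.lt_iff_lt]
      exact hab'
    · exact hxt _
  · intro a b hab
    have hab' : a.1 < b.1 := hab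
    have ha : a.1 < κ.ord := by
      have hb : b.1 < κ.ord + 1 := lt_of_lt_of_le b.2 hα
      exact hab'.trans_le (Order.lt_add_one_iff.1 hb)
    dsimp only
    rw [dif_pos ha]
    split_ifs with hb
    · apply h1
      rw [OrderIso.lt_iff_lt]
      exact hab'
    · exact h2 _

/-- the threshold for one cardinal -/
theorem threshold {κ : Cardinal.{u}} (h0 : ℵ₀ < κ) (hκ : κ.IsRegular)
    (hp : (2 : Cardinal.{u}) ^< κ = κ) {μ : Cardinal.{u}} (hμ0 : ℵ₀ ≤ μ) (hμ : μ < κ)
    (α : Ordinal.{u}) :
    (∀ (T : Type u) [PartialOrder T], IsTree T → ¬ Special T κ → Arrow T α μ) ↔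
      α ≤ κ.ord + 1 := by
  constructor
  · intro h
    by_contra hcon
    rw [not_le] at hcon
    have hα : κ.ord + 2 ≤ α := by
      rw [← one_add_one_eq_two, ← add_assoc]
      exact Order.add_one_le_of_lt hcon
    exact MP_12b8e0_lc.InjectionTree.tr_not_arrow hκ hα hμ0
      (h (MP_12b8e0_lc.InjectionTree.Tr κ) (MP_12b8e0_lc.InjectionTree.tr_isTree κ)
        (MP_12b8e0_lc.InjectionTree.tr_not_special hκ h0))
  · intro hα T _ hT hs
    exact positive hκ hp hμ hα T hT hs

/-- **Main result.** Let `κ` be weakly compact.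

(1) For every infinite cardinal `μ < κ` and every ordinal `α`, the relation
`non-κ-special tree → (α)²_μ` holds if and only if `α ≤ κ + 1`.

(2) In particular, for a natural number `n`, the relation `non-κ-special tree → (κ ^ n)²_ω` of Q2
holds if and only if `n ≤ 1`. -/
theorem result (κ : Cardinal.{u}) (hκ : WeaklyCompact κ) :
    (∀ μ : Cardinal.{u}, ℵ₀ ≤ μ → μ < κ → ∀ α : Ordinal.{u},
      ((∀ (T : Type u) [PartialOrder T], IsTree T → ¬ Special T κ → Arrow T α μ) ↔
        α ≤ κ.ord + 1)) ∧
    (∀ n : ℕ,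
      ((∀ (T : Type u) [PartialOrder T], IsTree T → ¬ Special T κ → Arrow T (κ.ord ^ n) ℵ₀) ↔
        n ≤ 1)) := by
  have h0 := hκ.1
  have hR : TH769.WC.Ram κ := hκ.2
  have hreg := hR.regular h0
  have hp := hR.powerlt h0
  refine ⟨fun μ h1 h2 α => threshold h0 hreg hp h1 h2 α, fun n => ?_⟩
  rw [threshold h0 hreg hp le_rfl h0 (κ.ord ^ n)]
  have hω : ω ≤ κ.ord := by rw [← ord_aleph0]; exact ord_le_ord.2 h0.le
  have h1 : (1 : Ordinal.{u}) < κ.ord := lt_of_lt_of_le one_lt_omega0 hω
  have hpos : 0 < κ.ord := lt_trans zero_lt_one h1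
  constructor
  · intro h
    by_contra hcon
    rw [not_le] at hcon
    have h2 : κ.ord ^ 2 ≤ κ.ord ^ n := pow_le_pow_right₀ h1.le hcon
    have h3 : κ.ord + 2 ≤ κ.ord ^ 2 := by
      rw [pow_two]
      calc κ.ord + 2 ≤ κ.ord + κ.ord := by
            gcongr
            have : (2 : Ordinal.{u}) < ω := by exact_mod_cast natCast_lt_omega0 2
            exact (this.trans_le hω).le
        _ = κ.ord * 2 := by rw [← one_add_one_eq_two, mul_add, mul_one]
        _ ≤ κ.ord * κ.ord := by
            gcongr
            have : (2 : Ordinal.{u}) < ω := by exact_mod_cast natCast_lt_omega0 2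
            exact (this.trans_le hω).le
    have h4 : κ.ord + 2 ≤ κ.ord + 1 := h3.trans (h2.trans h)
    have h5 : κ.ord + 1 < κ.ord + 2 := by
      rw [← one_add_one_eq_two, ← add_assoc]; exact lt_add_one _
    exact absurd h4 (not_le.2 h5)
  · intro h
    rcases Nat.le_one_iff_eq_zero_or_eq_one.1 h with rfl | rfl
    · rw [pow_zero]; exact h1.le.trans (le_self_add)
    · rw [pow_one]; exact le_self_add

end Pool.Agent.Results.MP_7e5099_lc.CountablyManyColours
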